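import Pool.Agent.X98.QG.Inv

/-!
# MP_9437d9_an, Q1 (proved)

If the system `A_ℓ x^(ℓ) + … + A_1 x' + A_0 x = 0` over the real quaternions, with `A_k` hermitian for
odd `k` and skewhermitian for even `k` and with `A_ℓ` invertible, is stably bounded, then every root
subspace of its companion matrix `C` is `G`-positive or `G`-negative.

`SymCoeffG` is in `Pool/Agent/X98/QG/Main.lean`, `IsStablyBoundedI` in `Pool/Agent/X98/QG/Inv.lean`
(nearby systems have the same symmetries and an invertible leading coefficient); the other definitions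
(`companion`, `gmat`, `IsBoundedSystem`, `IsEigenvalue`, `rootSubspace`, `IsPositiveOn`,
`IsNegativeOn`) are in `Pool/Agent/H636R3/QDefs.lean`.
-/

set_option autoImplicit false

open Matrix

namespace Pool.Agent.Results.MP_9437d9_an.DefiniteRootSubspaces

open Pool.Agent.H636R3.Quat Pool.Agent.X98.QG

/-- **Q1 holds.** Every root subspace of the companion matrix of a stably bounded system is
`G`-positive or `G`-negative (`ℓ, n ≥ 1` arbitrary; the eigenvalue `0` is allowed). -/
theorem result (n ℓ : ℕ) (hn : 1 ≤ n) (hℓ : 1 ≤ ℓ) (A : ℕ → Matrix (Fin n) (Fin n) H)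
    (hA : SymCoeffG ℓ A) (hinv : IsUnit (A ℓ)) (hst : IsStablyBoundedI ℓ A)
    (l : H) (hl : IsEigenvalue (companion ℓ A) l) :
    IsPositiveOn (gmat ℓ A) (rootSubspace (companion ℓ A) l) ∨
      IsNegativeOn (gmat ℓ A) (rootSubspace (companion ℓ A) l) :=
  definite n ℓ hn hℓ A hA hinv (stablyBounded_of_I hinv hst) l hl

end Pool.Agent.Results.MP_9437d9_an.DefiniteRootSubspaces
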